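import Mathlib
import Pool.Agent.Lib.MP_881a56_co.Large

/-! Poonen: union-closed families with a unique frequent element, when few members avoid it. -/

set_option autoImplicit false

namespace Pool.Agent.Results.MP_881a56_co.FewAvoid

open Finset

/-- **Poonen, few members avoid the frequent element**: it lies in every nonempty member and more than a quarter
of all subsets are members, or the members avoiding it are few against the missing sets. -/
theorem result : ∀ (F : Finset (Finset ℕ)) (M : Finset ℕ) (x : ℕ),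
    (∀ A ∈ F, ∀ B ∈ F, A ∪ B ∈ F) →
    M ∈ F →
    (∀ A ∈ F, A ⊆ M) →
    (∀ a ∈ M, ∀ b ∈ M, a ≠ b → ∃ A ∈ F, (A ∩ {a, b}).card = 1) →
    (∀ y : ℕ, F.card ≤ 2 * (F.filter (fun A => y ∈ A)).card ↔ y = x) →
    (((∀ A ∈ F, A.Nonempty → x ∈ A) ∧ 2 ^ M.card < 4 * F.card) ∨
      (2 ^ (M.card - 1) ≤ 2 * (F.filter (fun A => x ∈ A)).card ∧
        ((M.card : ℤ) - 1) * ((F.filter (fun A => x ∉ A)).card : ℤ)
          * (2 ^ (M.card - 1) + 2 * ((F.filter (fun A => x ∉ A)).card : ℤ))
        ≤ 2 * (2 ^ (M.card - 1) - ((F.filter (fun A => x ∈ A)).card : ℤ))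
          * (2 * ((F.filter (fun A => x ∈ A)).card : ℤ) - 2 ^ (M.card - 1)))) →
    (2 ≤ M.card → F = insert ∅ (M.powerset.filter (fun S => x ∈ S))) ∧
    (M.card = 1 → F = {{x}} ∨ F = {∅, {x}}) := by
  intro F M x hU hM hsub htw hx hcase
  have hxM : x ∈ M := by
    have h1 := (hx x).2 rfl
    have h2 : 0 < F.card := card_pos.2 ⟨M, hM⟩
    have h3 : 0 < (F.filter (fun A => x ∈ A)).card := by omega
    obtain ⟨A, hA⟩ := card_pos.1 h3
    rw [mem_filter] at hA
    exact hsub A hA.1 hA.2
  refine ⟨fun h2 => ?_, fun h1 => ?_⟩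
  · rcases hcase with h | h
    · exact Pool.Agent.Lib.MP_881a56_co.Large.partB hU hM hsub hxM htw hx h.1 h.2 h2
    · exact (Pool.Agent.Lib.MP_881a56_co.Large.partD hU hM hsub hxM hx h.2 h.1 h2).elim
  · obtain ⟨z, hz⟩ := card_eq_one.1 h1
    have hzx : x = z := by rw [hz] at hxM; exact mem_singleton.1 hxM
    rw [hz, ← hzx] at hM hsub
    by_cases h0 : (∅ : Finset ℕ) ∈ F
    · right
      ext A
      rw [mem_insert, mem_singleton]
      constructor
      · intro hA
        exact subset_singleton_iff.1 (hsub A hA)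
      · rintro (h | h)
        · rw [h]; exact h0
        · rw [h]; exact hM
    · left
      ext A
      rw [mem_singleton]
      constructor
      · intro hA
        rcases subset_singleton_iff.1 (hsub A hA) with h | h
        · rw [h] at hA; exact absurd hA h0
        · exact h
      · intro h
        rw [h]; exact hM

end Pool.Agent.Results.MP_881a56_co.FewAvoid
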