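import Mathlib

/-! Poonen's question on union-closed families with a unique frequent element, for upper semimodular families. -/

set_option autoImplicit false

namespace Pool.Agent.Results.MP_881a56_co.Semimodular

open Finset

/-- The injection `Z ↦ Z ∪ Q`. -/
private theorem inj {F : Finset (Finset ℕ)} (hU : ∀ A ∈ F, ∀ B ∈ F, A ∪ B ∈ F) {Q a : Finset ℕ} (hQa : ¬ Q ⊆ a)
    (hc : ∀ Z ∈ F, ¬ Q ⊆ Z → ∀ D ∈ F, ¬ (Z ⊂ D ∧ D ⊂ Z ∪ Q)) :
    Set.InjOn (fun Z : Finset ℕ => Z ∪ Q) (F.filter (fun Z => Z ⊆ a)) := by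
  intro Z₁ h₁ Z₂ h₂ he
  simp only at he
  rw [mem_coe, mem_filter] at h₁ h₂
  obtain ⟨h1F, h1a⟩ := h₁
  obtain ⟨h2F, h2a⟩ := h₂
  have key : ∀ U V : Finset ℕ, U ∈ F → V ∈ F → U ⊆ a → V ⊆ a → U ∪ Q = V ∪ Q → V ⊆ U := by
    intro U V hUF hVF hUa hVa h
    by_contra hcon
    refine hc U hUF (fun h' => hQa (h'.trans hUa)) (U ∪ V) (hU U hUF V hVF) ⟨?_, ?_⟩
    · rw [Finset.ssubset_iff_subset_ne]
      refine ⟨subset_union_left, fun h' => hcon ?_⟩
      rw [h']
      exact subset_union_right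
    · rw [Finset.ssubset_iff_subset_ne]
      refine ⟨union_subset subset_union_left ?_, fun h' => hQa ?_⟩
      · rw [h]
        exact subset_union_left
      · have h1 : Q ⊆ U ∪ V := by
          rw [h']
          exact subset_union_right
        exact h1.trans (union_subset hUa hVa)
  exact (key Z₂ Z₁ h2F h1F h2a h1a he.symm).antisymm (key Z₁ Z₂ h1F h2F h1a h2a he)

private theorem maps {F : Finset (Finset ℕ)} (hU : ∀ A ∈ F, ∀ B ∈ F, A ∪ B ∈ F) {Q a : Finset ℕ} (hQ : Q ∈ F)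
    (hQa : ¬ Q ⊆ a) :
    ∀ Z ∈ F.filter (fun Z => Z ⊆ a), Z ∪ Q ∈ F.filter (fun Z => ¬ Z ⊆ a) := by
  intro Z hZ
  rw [mem_filter] at hZ ⊢
  exact ⟨hU Z hZ.1 Q hQ, fun h => hQa (subset_union_right.trans h)⟩

private theorem card_le' {F : Finset (Finset ℕ)} (hU : ∀ A ∈ F, ∀ B ∈ F, A ∪ B ∈ F) {Q a : Finset ℕ} (hQ : Q ∈ F)
    (hQa : ¬ Q ⊆ a) (hc : ∀ Z ∈ F, ¬ Q ⊆ Z → ∀ D ∈ F, ¬ (Z ⊂ D ∧ D ⊂ Z ∪ Q)) :
    (F.filter (fun Z => Z ⊆ a)).card ≤ (F.filter (fun Z => ¬ Z ⊆ a)).card :=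
  card_le_card_of_injOn _ (maps hU hQ hQa) (inj hU hQa hc)

/-- A maximal member not containing `Q`. -/
private theorem exists_max {F : Finset (Finset ℕ)} {Q Z₀ : Finset ℕ} (hZ : Z₀ ∈ F) (hQ : ¬ Q ⊆ Z₀) :
    ∃ a ∈ F, Z₀ ⊆ a ∧ ¬ Q ⊆ a ∧ ∀ Z ∈ F, ¬ Q ⊆ Z → a ⊆ Z → Z = a := by
  obtain ⟨a, h0, ha⟩ := (F.filter (fun Z => ¬ Q ⊆ Z)).exists_le_maximal (mem_filter.2 ⟨hZ, hQ⟩)
  have h1 := mem_filter.1 ha.prop
  exact ⟨a, h1.1, h0, h1.2, fun Z hZF hQZ haZ => (ha.eq_of_le (mem_filter.2 ⟨hZF, hQZ⟩) haZ).symm⟩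

/-- The elements of `Q \ a`, `a` maximal. -/
private theorem mem_iff {F : Finset (Finset ℕ)} (hU : ∀ A ∈ F, ∀ B ∈ F, A ∪ B ∈ F) {Q a : Finset ℕ} (ha : a ∈ F)
    (hmax : ∀ Z ∈ F, ¬ Q ⊆ Z → a ⊆ Z → Z = a) {y : ℕ} (hy : y ∈ Q) (hya : y ∉ a) :
    ∀ Z ∈ F, (y ∈ Z ↔ ¬ Z ⊆ a) := by
  intro Z hZ
  constructor
  · intro h h'
    exact hya (h' h)
  · intro h
    by_contra hyZ
    refine h ?_
    have h1 : ¬ Q ⊆ a ∪ Z := fun h' => by
      have := h' hy
      rw [mem_union] at this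
      tauto
    have h2 := hmax (a ∪ Z) (hU a ha Z hZ) h1 subset_union_left
    rw [← h2]
    exact subset_union_right

/-- The induction: a family with least member `P` in which no element outside `P` is in more than half of the members is
closed under complements. -/
private theorem compl_mem (n : ℕ) : ∀ (G : Finset (Finset ℕ)) (P M : Finset ℕ), G.card ≤ n →
    (∀ A ∈ G, ∀ B ∈ G, A ∪ B ∈ G) → P ∈ G → M ∈ G → (∀ A ∈ G, P ⊆ A) → (∀ A ∈ G, A ⊆ M) →
    (∀ Q ∈ G, P ⊂ Q → (∀ D ∈ G, ¬ (P ⊂ D ∧ D ⊂ Q)) → ∀ Z ∈ G, ¬ Q ⊆ Z → ∀ D ∈ G, ¬ (Z ⊂ D ∧ D ⊂ Z ∪ Q)) →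
    (∀ y, y ∉ P → 2 * (G.filter (fun A => y ∈ A)).card ≤ G.card) →
    ∀ Z ∈ G, P ∪ (M \ Z) ∈ G := by
  induction n with
  | zero =>
    intro G P M hn _ hP
    have := card_pos.2 ⟨P, hP⟩
    omega
  | succ n ih =>
    intro G P M hn hU hP hM hPm hMm hcov hfreq Z hZ
    by_cases hPM : P = M
    · have hZM : Z = M := (hMm Z hZ).antisymm (hPM ▸ hPm Z hZ)
      rw [hZM, sdiff_self, bot_eq_empty, union_empty]
      exact hP
    -- an atom
    obtain ⟨Q, _, hQmin⟩ := (G.filter (fun Q => P ⊂ Q)).exists_le_minimal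
      (mem_filter.2 ⟨hM, Finset.ssubset_iff_subset_ne.2 ⟨hPm M hM, hPM⟩⟩)
    obtain ⟨hQG, hPQ⟩ := mem_filter.1 hQmin.prop
    have hQat : ∀ D ∈ G, ¬ (P ⊂ D ∧ D ⊂ Q) := by
      rintro D hD ⟨h1, h2⟩
      have := hQmin.eq_of_le (mem_filter.2 ⟨hD, h1⟩) h2.1
      exact h2.2 (this ▸ Subset.refl _)
    have hcQ := hcov Q hQG hPQ hQat
    obtain ⟨a, haG, hPa, hQa, hmax⟩ := exists_max (F := G) (Q := Q) hP hPQ.2
    obtain ⟨y, hyQ, hya⟩ := not_subset.1 hQa
    have hy := mem_iff hU haG hmax hyQ hya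
    have hinj := inj hU hQa hcQ
    have hmaps := maps hU hQG hQa
    have hcard := card_filter_add_card_filter_not (s := G) (fun Z => Z ⊆ a)
    have hle := card_le' hU hQG hQa hcQ
    have hge : (G.filter (fun Z => ¬ Z ⊆ a)).card ≤ (G.filter (fun Z => Z ⊆ a)).card := by
      have h1 := hfreq y (fun h => hya (hPa h))
      have h2 : G.filter (fun A => y ∈ A) = G.filter (fun Z => ¬ Z ⊆ a) := filter_congr hy
      rw [h2] at h1
      omega
    have himage : (G.filter (fun Z => Z ⊆ a)).image (fun Z => Z ∪ Q) = G.filter (fun Z => ¬ Z ⊆ a) := by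
      apply eq_of_subset_of_card_le
      · intro W hW
        obtain ⟨V, hV, rfl⟩ := mem_image.1 hW
        exact hmaps V hV
      · rw [card_image_of_injOn hinj]
        exact hge
    have hsurj : ∀ W ∈ G, ¬ W ⊆ a → ∃ V ∈ G, V ⊆ a ∧ V ∪ Q = W := by
      intro W hW hWa
      have h1 : W ∈ (G.filter (fun Z => Z ⊆ a)).image (fun Z => Z ∪ Q) := by
        rw [himage]
        exact mem_filter.2 ⟨hW, hWa⟩
      obtain ⟨V, hV, h2⟩ := mem_image.1 h1
      exact ⟨V, (mem_filter.1 hV).1, (mem_filter.1 hV).2, h2⟩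
    -- `Q ∩ a = P`
    have hQaP : ∀ w, w ∈ Q → w ∈ a → w ∈ P := by
      intro w hwQ hwa
      by_contra hwP
      have h1 := hfreq w hwP
      have h2 : insert a (G.filter (fun Z => ¬ Z ⊆ a)) ⊆ G.filter (fun A => w ∈ A) := by
        intro W hW
        rcases mem_insert.1 hW with rfl | hW
        · exact mem_filter.2 ⟨haG, hwa⟩
        · obtain ⟨hWG, hWa⟩ := mem_filter.1 hW
          obtain ⟨V, _, _, rfl⟩ := hsurj W hWG hWa
          exact mem_filter.2 ⟨hWG, mem_union_right _ hwQ⟩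
      have h3 := card_le_card h2
      have h4 : a ∉ G.filter (fun Z => ¬ Z ⊆ a) := by
        rw [mem_filter]
        exact fun h => h.2 (Subset.refl a)
      rw [card_insert_of_notMem h4] at h3
      omega
    have hMa : ¬ M ⊆ a := fun h => hQa ((hMm Q hQG).trans h)
    have hMaQ : ∀ w, w ∈ M → w ∈ a ∨ w ∈ Q := by
      intro w hw
      obtain ⟨V, _, hVa, hVM⟩ := hsurj M hM hMa
      rw [← hVM, mem_union] at hw
      rcases hw with hw | hw
      · exact Or.inl (hVa hw)
      · exact Or.inr hw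
    -- the induction hypothesis for the members inside `a`
    have hlt : (G.filter (fun Z => Z ⊆ a)).card ≤ n := by
      have h1 : 0 < (G.filter (fun Z => ¬ Z ⊆ a)).card := card_pos.2 ⟨M, mem_filter.2 ⟨hM, hMa⟩⟩
      omega
    have hrec := ih (G.filter (fun Z => Z ⊆ a)) P a hlt
      (fun A hA B hB => by
        rw [mem_filter] at hA hB ⊢
        exact ⟨hU A hA.1 B hB.1, union_subset hA.2 hB.2⟩)
      (mem_filter.2 ⟨hP, hPa⟩) (mem_filter.2 ⟨haG, Subset.refl _⟩)
      (fun A hA => hPm A (mem_filter.1 hA).1) (fun A hA => (mem_filter.1 hA).2)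
      (fun Q' hQ' hPQ' hat' V hV hQV D hD => by
        refine hcov Q' (mem_filter.1 hQ').1 hPQ' ?_ V (mem_filter.1 hV).1 hQV D (mem_filter.1 hD).1
        rintro D' hD' ⟨h1, h2⟩
        exact hat' D' (mem_filter.2 ⟨hD', h2.1.trans (mem_filter.1 hQ').2⟩) ⟨h1, h2⟩)
      (fun w hw => by
        by_cases hwa : w ∈ a
        · have hwQ : w ∉ Q := fun h => hw (hQaP w h hwa)
          have h1 : ((G.filter (fun Z => Z ⊆ a)).filter (fun A => w ∈ A)).card ≤
              ((G.filter (fun Z => ¬ Z ⊆ a)).filter (fun A => w ∈ A)).card := by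
            apply card_le_card_of_injOn (fun V => V ∪ Q)
            · intro V hV
              rw [mem_coe, mem_filter] at hV
              rw [mem_coe, mem_filter]
              exact ⟨hmaps V hV.1, mem_union_left _ hV.2⟩
            · intro V hV V' hV' h
              rw [mem_coe, mem_filter] at hV hV'
              exact hinj (mem_coe.2 hV.1) (mem_coe.2 hV'.1) h
          have h2 := card_filter_add_card_filter_not (s := G.filter (fun A => w ∈ A)) (fun Z => Z ⊆ a)
          rw [filter_comm, filter_comm (fun A => w ∈ A)] at h2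
          have h3 := hfreq w hw
          omega
        · have h1 : (G.filter (fun Z => Z ⊆ a)).filter (fun A => w ∈ A) = ∅ := by
            rw [filter_eq_empty_iff]
            intro V hV hwV
            exact hwa ((mem_filter.1 hV).2 hwV)
          rw [h1]
          simp)
    by_cases hZa : Z ⊆ a
    · have h1 := (mem_filter.1 (hrec Z (mem_filter.2 ⟨hZ, hZa⟩))).1
      have h2 : P ∪ (M \ Z) = (P ∪ (a \ Z)) ∪ Q := by
        ext w
        simp only [mem_union, mem_sdiff]
        constructor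
        · rintro (h | ⟨h, h'⟩)
          · exact Or.inl (Or.inl h)
          · rcases hMaQ w h with h3 | h3
            · exact Or.inl (Or.inr ⟨h3, h'⟩)
            · exact Or.inr h3
        · rintro ((h | ⟨h, h'⟩) | h)
          · exact Or.inl h
          · exact Or.inr ⟨hMm a haG h, h'⟩
          · by_cases h3 : w ∈ Z
            · exact Or.inl (hQaP w h (hZa h3))
            · exact Or.inr ⟨hMm Q hQG h, h3⟩
      rw [h2]
      exact hU _ h1 Q hQG
    · obtain ⟨V, hV, hVa, rfl⟩ := hsurj Z hZ hZa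
      have h1 := (mem_filter.1 (hrec V (mem_filter.2 ⟨hV, hVa⟩))).1
      have h2 : P ∪ (M \ (V ∪ Q)) = P ∪ (a \ V) := by
        ext w
        simp only [mem_union, mem_sdiff]
        constructor
        · rintro (h | ⟨h, h'⟩)
          · exact Or.inl h
          · rcases hMaQ w h with h3 | h3
            · exact Or.inr ⟨h3, fun h4 => h' (Or.inl h4)⟩
            · exact absurd (Or.inr h3) h'
        · rintro (h | ⟨h, h'⟩)
          · exact Or.inl h
          · by_cases h3 : w ∈ Q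
            · exact Or.inl (hQaP w h3 h)
            · exact Or.inr ⟨hMm a haG h, fun h4 => h4.elim h' h3⟩
      rw [h2]
      exact h1

/-- A family of sets containing `x`, closed under unions and complements, which separates points, contains all sets
containing `x`. -/
private theorem all_mem {G : Finset (Finset ℕ)} {M : Finset ℕ} {x : ℕ} (hU : ∀ A ∈ G, ∀ B ∈ G, A ∪ B ∈ G)
    (hx : {x} ∈ G) (hM : M ∈ G) (hxG : ∀ A ∈ G, x ∈ A) (hMm : ∀ A ∈ G, A ⊆ M)
    (hC : ∀ A ∈ G, {x} ∪ (M \ A) ∈ G)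
    (hsep : ∀ a ∈ M, ∀ b ∈ M, a ≠ x → b ≠ x → a ≠ b → ∃ A ∈ G, (a ∈ A ∧ b ∉ A) ∨ (b ∈ A ∧ a ∉ A))
    {S : Finset ℕ} (hxS : x ∈ S) (hSM : S ⊆ M) : S ∈ G := by
  -- intersections
  have hI : ∀ A ∈ G, ∀ B ∈ G, A ∩ B ∈ G := by
    intro A hA B hB
    have h1 := hC _ (hU _ (hC A hA) _ (hC B hB))
    have h2 : {x} ∪ (M \ (({x} ∪ (M \ A)) ∪ ({x} ∪ (M \ B)))) = A ∩ B := by
      ext w
      simp only [mem_union, mem_sdiff, mem_inter, mem_singleton]
      constructor
      · rintro (rfl | ⟨h, h'⟩)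
        · exact ⟨hxG A hA, hxG B hB⟩
        · refine ⟨?_, ?_⟩
          · by_contra hc
            exact h' (Or.inl (Or.inr ⟨h, hc⟩))
          · by_contra hc
            exact h' (Or.inr (Or.inr ⟨h, hc⟩))
      · rintro ⟨h, h'⟩
        by_cases hw : w = x
        · exact Or.inl hw
        · refine Or.inr ⟨hMm A hA h, ?_⟩
          rintro ((h3 | h3) | (h3 | h3))
          · exact hw h3
          · exact h3.2 h
          · exact hw h3
          · exact h3.2 h'
    rw [← h2]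
    exact h1
  -- for `y ∈ S`, a member containing `y` and inside `S`
  have hy : ∀ y ∈ S, ∃ A ∈ G, y ∈ A ∧ A ⊆ S := by
    intro y hy
    by_cases hyx : y = x
    · exact ⟨{x}, hx, by rw [hyx, mem_singleton], by simpa using hxS⟩
    have h1 : ∀ T : Finset ℕ, T ⊆ M \ S → ∃ A ∈ G, y ∈ A ∧ Disjoint A T := by
      intro T
      induction T using Finset.induction_on with
      | empty =>
        intro _
        exact ⟨M, hM, hSM hy, disjoint_empty_right _⟩
      | insert z T hz ih =>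
        intro hT
        obtain ⟨A, hA, hyA, hAT⟩ := ih ((subset_insert _ _).trans hT)
        have hzM := mem_sdiff.1 (hT (mem_insert_self z T))
        have hzx : z ≠ x := fun h => hzM.2 (h ▸ hxS)
        have hyz : y ≠ z := fun h => hzM.2 (h ▸ hy)
        have h2 : ∃ B ∈ G, y ∈ B ∧ z ∉ B := by
          obtain ⟨B, hB, h3 | h3⟩ := hsep y (hSM hy) z hzM.1 hyx hzx hyz
          · exact ⟨B, hB, h3⟩
          · refine ⟨_, hC B hB, ?_, ?_⟩
            · exact mem_union_right _ (mem_sdiff.2 ⟨hSM hy, h3.2⟩)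
            · rw [mem_union, mem_singleton, mem_sdiff]
              rintro (h4 | h4)
              · exact hzx h4
              · exact h4.2 h3.1
        obtain ⟨B, hB, hyB, hzB⟩ := h2
        refine ⟨A ∩ B, hI A hA B hB, mem_inter.2 ⟨hyA, hyB⟩, ?_⟩
        rw [disjoint_insert_right]
        exact ⟨fun h => hzB (mem_inter.1 h).2, disjoint_of_subset_left inter_subset_left hAT⟩
    obtain ⟨A, hA, hyA, hAS⟩ := h1 _ (Subset.refl _)
    refine ⟨A, hA, hyA, fun w hw => ?_⟩
    by_contra hwS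
    exact disjoint_left.1 hAS hw (mem_sdiff.2 ⟨hMm A hA hw, hwS⟩)
  have h3 : ∀ T : Finset ℕ, T ⊆ S → ∃ A ∈ G, T ⊆ A ∧ A ⊆ S := by
    intro T
    induction T using Finset.induction_on with
    | empty =>
      intro _
      exact ⟨{x}, hx, empty_subset _, by simpa using hxS⟩
    | insert z T hz ih =>
      intro hT
      obtain ⟨A, hA, hTA, hAS⟩ := ih ((subset_insert _ _).trans hT)
      obtain ⟨B, hB, hzB, hBS⟩ := hy z (hT (mem_insert_self z T))
      refine ⟨A ∪ B, hU A hA B hB, ?_, union_subset hAS hBS⟩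
      intro w hw
      rcases mem_insert.1 hw with rfl | hw
      · exact mem_union_right _ hzB
      · exact mem_union_left _ (hTA hw)
  obtain ⟨A, hA, h4, h5⟩ := h3 S (Subset.refl _)
  rw [h4.antisymm h5]
  exact hA

/-- Separation in terms of membership. -/
private theorem sep {A : Finset ℕ} {a b : ℕ} (hab : a ≠ b) (h : (A ∩ {a, b}).card = 1) :
    (a ∈ A ∧ b ∉ A) ∨ (b ∈ A ∧ a ∉ A) := by
  by_cases ha : a ∈ A <;> by_cases hb : b ∈ A
  · exfalso
    have h1 : A ∩ {a, b} = {a, b} := by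
      ext w
      simp only [mem_inter, mem_insert, mem_singleton]
      constructor
      · exact fun h => h.2
      · rintro (rfl | rfl)
        · exact ⟨ha, Or.inl rfl⟩
        · exact ⟨hb, Or.inr rfl⟩
    rw [h1, card_pair hab] at h
    omega
  · exact Or.inl ⟨ha, hb⟩
  · exact Or.inr ⟨hb, ha⟩
  · exfalso
    have h1 : A ∩ {a, b} = ∅ := by
      ext w
      simp only [mem_inter, mem_insert, mem_singleton, notMem_empty, iff_false]
      rintro ⟨hw, (rfl | rfl)⟩
      · exact ha hw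
      · exact hb hw
    rw [h1, card_empty] at h
    omega

/-- The case in which the empty set is a member. -/
private theorem with_empty {F : Finset (Finset ℕ)} {M : Finset ℕ} {x : ℕ} (hU : ∀ A ∈ F, ∀ B ∈ F, A ∪ B ∈ F)
    (he : ∅ ∈ F) (hM : M ∈ F) (hMm : ∀ A ∈ F, A ⊆ M) (hM0 : M.Nonempty)
    (hsep : ∀ a ∈ M, ∀ b ∈ M, a ≠ b → ∃ A ∈ F, (A ∩ {a, b}).card = 1)
    (hsm : ∀ C ∈ F, (∀ D ∈ F, D.Nonempty → C ⊆ D) → ∀ A ∈ F, C ⊂ A → (∀ D ∈ F, ¬ (C ⊂ D ∧ D ⊂ A)) →
      ∀ B ∈ F, C ⊆ B → ¬ A ⊆ B → ∀ D ∈ F, ¬ (B ⊂ D ∧ D ⊂ B ∪ A))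
    (huniq : ∀ y : ℕ, F.card ≤ 2 * (F.filter (fun A => y ∈ A)).card → y = x) :
    F = insert ∅ (M.powerset.filter (fun S => x ∈ S)) ∧ x ∈ M ∧ F.card ≤ 2 * (F.filter (fun A => x ∈ A)).card := by
  -- for a minimal nonempty member `Q` and a maximal member `a` not containing `Q`
  have key : ∀ Q ∈ F, Q.Nonempty → (∀ D ∈ F, D.Nonempty → D ⊆ Q → D = Q) → ∀ Z ∈ F, ¬ Q ⊆ Z →
      x ∈ Q ∧ x ∉ Z ∧ F.card ≤ 2 * (F.filter (fun A => x ∈ A)).card := by
    intro Q hQ hQ0 hQm Z hZ hQZ
    have hat : ∀ D ∈ F, ¬ (∅ ⊂ D ∧ D ⊂ Q) := by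
      rintro D hD ⟨h1, h2⟩
      have h3 := hQm D hD (nonempty_iff_ne_empty.2 (fun h => h1.2 (h ▸ Subset.refl _))) h2.1
      exact h2.2 (h3 ▸ Subset.refl _)
    have hc : ∀ Z ∈ F, ¬ Q ⊆ Z → ∀ D ∈ F, ¬ (Z ⊂ D ∧ D ⊂ Z ∪ Q) := fun Z hZ hQZ =>
      hsm ∅ he (fun _ _ _ => empty_subset _) Q hQ (by
        rw [Finset.ssubset_iff_subset_ne]
        exact ⟨empty_subset _, hQ0.ne_empty.symm⟩) hat Z hZ (empty_subset _) hQZ
    obtain ⟨a, haF, hZa, hQa, hmax⟩ := exists_max hZ hQZ
    obtain ⟨y, hyQ, hya⟩ := not_subset.1 hQa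
    have hy := mem_iff hU haF hmax hyQ hya
    have hle := card_le' hU hQ hQa hc
    have hcard := card_filter_add_card_filter_not (s := F) (fun Z => Z ⊆ a)
    have h2 : F.filter (fun A => y ∈ A) = F.filter (fun Z => ¬ Z ⊆ a) := filter_congr hy
    have h3 : F.card ≤ 2 * (F.filter (fun A => y ∈ A)).card := by
      rw [h2]
      omega
    have h4 := huniq y h3
    rw [← h4]
    exact ⟨hyQ, fun h => hya (hZa h), h3⟩
  have hmin : ∀ Z ∈ F, Z.Nonempty → ∃ Q ∈ F, Q.Nonempty ∧ Q ⊆ Z ∧ ∀ D ∈ F, D.Nonempty → D ⊆ Q → D = Q := by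
    intro Z hZ hZ0
    obtain ⟨Q, h0, hQ⟩ := (F.filter (fun Q => Q.Nonempty)).exists_le_minimal (mem_filter.2 ⟨hZ, hZ0⟩)
    obtain ⟨h1, h2⟩ := mem_filter.1 hQ.prop
    exact ⟨Q, h1, h2, h0, fun D hD hD0 hDQ => hQ.eq_of_le (mem_filter.2 ⟨hD, hD0⟩) hDQ⟩
  obtain ⟨P, hP, hP0, hPM, hPmin⟩ := hmin M hM hM0
  obtain ⟨hxP, _, hxfreq⟩ := key P hP hP0 hPmin ∅ he (fun h => hP0.ne_empty (subset_empty.1 h))
  -- every nonempty member contains `P`
  have hall : ∀ Z ∈ F, Z.Nonempty → P ⊆ Z := by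
    intro Z hZ hZ0
    by_contra hPZ
    obtain ⟨Q, hQ, hQ0, hQZ, hQmin⟩ := hmin Z hZ hZ0
    have h1 := (key P hP hP0 hPmin Q hQ (fun h => hPZ (h.trans hQZ))).2.1
    have h2 := (key Q hQ hQ0 hQmin ∅ he (fun h => hQ0.ne_empty (subset_empty.1 h))).1
    exact h1 h2
  obtain ⟨G, hG⟩ : ∃ G : Finset (Finset ℕ), G = F.filter (fun Z => Z.Nonempty) := ⟨_, rfl⟩
  have hFG : F = insert ∅ G := by
    ext Z
    rw [mem_insert, hG, mem_filter]
    constructor
    · intro h
      rcases Z.eq_empty_or_nonempty with h1 | h1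
      · exact Or.inl h1
      · exact Or.inr ⟨h, h1⟩
    · rintro (rfl | h)
      · exact he
      · exact h.1
  have hGF : ∀ Z ∈ G, Z ∈ F ∧ Z.Nonempty := fun Z hZ => by
    rw [hG] at hZ
    exact mem_filter.1 hZ
  have hFG' : ∀ Z ∈ F, Z.Nonempty → Z ∈ G := fun Z hZ hZ0 => by
    rw [hG]
    exact mem_filter.2 ⟨hZ, hZ0⟩
  have heG : ∅ ∉ G := fun h => by simpa using (hGF _ h).2
  have hcardG : F.card = G.card + 1 := by rw [hFG, card_insert_of_notMem heG]
  have hfil : ∀ y : ℕ, F.filter (fun A => y ∈ A) = G.filter (fun A => y ∈ A) := by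
    intro y
    ext Z
    rw [mem_filter, mem_filter]
    constructor
    · rintro ⟨h1, h2⟩
      exact ⟨hFG' Z h1 ⟨y, h2⟩, h2⟩
    · rintro ⟨h1, h2⟩
      exact ⟨(hGF Z h1).1, h2⟩
  have hfreq : ∀ y, y ≠ x → 2 * (G.filter (fun A => y ∈ A)).card ≤ G.card := by
    intro y hy
    by_contra hcon
    apply hy
    apply huniq y
    rw [hfil, hcardG]
    omega
  have hPG : P ∈ G := hFG' P hP hP0
  have hPx : P = {x} := by
    apply Subset.antisymm
    · intro y hy
      rw [mem_singleton]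
      by_contra hyx
      have h1 := hfreq y hyx
      have h2 : G.filter (fun A => y ∈ A) = G := by
        rw [filter_eq_self]
        intro Z hZ
        exact hall Z (hGF Z hZ).1 (hGF Z hZ).2 hy
      rw [h2] at h1
      have := card_pos.2 ⟨P, hPG⟩
      omega
    · simpa using hxP
  have hMG : M ∈ G := hFG' M hM hM0
  have hUG : ∀ A ∈ G, ∀ B ∈ G, A ∪ B ∈ G := by
    intro A hA B hB
    refine hFG' _ (hU A (hGF A hA).1 B (hGF B hB).1) ?_
    exact (hGF A hA).2.mono subset_union_left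
  have hcompl := compl_mem G.card G P M le_rfl hUG hPG hMG (fun A hA => hall A (hGF A hA).1 (hGF A hA).2)
    (fun A hA => hMm A (hGF A hA).1)
    (fun Q hQ hPQ hat Z hZ hQZ D hD =>
      hsm P hP hall Q (hGF Q hQ).1 hPQ (by
        rintro D' hD' ⟨h1, h2⟩
        exact hat D' (hFG' D' hD' (hP0.mono h1.1)) ⟨h1, h2⟩) Z (hGF Z hZ).1 (hall Z (hGF Z hZ).1 (hGF Z hZ).2) hQZ D
        (hGF D hD).1)
    (fun y hy => hfreq y (fun h => hy (by rw [hPx, mem_singleton]; exact h)))
  have hxM : x ∈ M := hPM hxP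
  refine ⟨?_, hxM, hxfreq⟩
  rw [hFG]
  congr 1
  ext S
  rw [mem_filter, mem_powerset]
  constructor
  · intro hS
    refine ⟨hMm S (hGF S hS).1, ?_⟩
    have := hall S (hGF S hS).1 (hGF S hS).2
    exact this hxP
  · rintro ⟨hSM, hxS⟩
    refine all_mem hUG (hPx ▸ hPG) hMG (fun A hA => hall A (hGF A hA).1 (hGF A hA).2 hxP)
      (fun A hA => hMm A (hGF A hA).1) (fun A hA => hPx ▸ hcompl A hA) ?_ hxS hSM
    intro a ha b hb _ _ hab
    obtain ⟨A, hA, h1⟩ := hsep a ha b hb hab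
    have h2 := sep hab h1
    refine ⟨A, hFG' A hA ?_, h2⟩
    rcases h2 with h2 | h2
    · exact ⟨a, h2.1⟩
    · exact ⟨b, h2.1⟩

/-- Poonen's question for families whose lattice (with the empty set added) is upper semimodular: if `A` covers `C`
and `B` contains `C` but not `A` then `A ∪ B` covers `B`. This is required only for the sets `C` that are contained in
all nonempty members, i.e. for `C = ∅` and, if there is one, for the least nonempty member. -/
theorem result :
    ∀ (F : Finset (Finset ℕ)) (M : Finset ℕ) (x : ℕ),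
      (∀ A ∈ F, ∀ B ∈ F, A ∪ B ∈ F) →
      M ∈ F →
      (∀ A ∈ F, A ⊆ M) →
      (∀ a ∈ M, ∀ b ∈ M, a ≠ b → ∃ A ∈ F, (A ∩ {a, b}).card = 1) →
      (∀ C ∈ insert ∅ F, (∀ D ∈ F, D.Nonempty → C ⊆ D) →
        ∀ A ∈ F, C ⊂ A → (∀ D ∈ F, ¬ (C ⊂ D ∧ D ⊂ A)) →
          ∀ B ∈ F, C ⊆ B → ¬ A ⊆ B → ∀ D ∈ F, ¬ (B ⊂ D ∧ D ⊂ B ∪ A)) →
      (∀ y : ℕ, F.card ≤ 2 * (F.filter (fun A => y ∈ A)).card ↔ y = x) →
      (2 ≤ M.card → F = insert ∅ (M.powerset.filter (fun S => x ∈ S))) ∧
      (M.card = 1 → F = {{x}} ∨ F = {∅, {x}}) := by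
  intro F M x hU hM hMm hsep hsm hfreq
  have hM0 : M.Nonempty := by
    have h1 := (hfreq x).2 rfl
    have h2 : 0 < F.card := card_pos.2 ⟨M, hM⟩
    have h3 : 0 < (F.filter (fun A => x ∈ A)).card := by omega
    obtain ⟨A, hA⟩ := card_pos.1 h3
    exact ⟨x, hMm A (mem_filter.1 hA).1 (mem_filter.1 hA).2⟩
  obtain ⟨F', hF'⟩ : ∃ F' : Finset (Finset ℕ), F' = insert ∅ F := ⟨_, rfl⟩
  have hcardle : F.card ≤ F'.card := by
    rw [hF']
    exact card_le_card (subset_insert _ _)
  have hfil : ∀ y : ℕ, F'.filter (fun A => y ∈ A) = F.filter (fun A => y ∈ A) := by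
    intro y
    rw [hF', filter_insert, if_neg (notMem_empty y)]
  have hmain := with_empty (F := F') (M := M) (x := x)
    (by
      intro A hA B hB
      rw [hF', mem_insert] at hA hB ⊢
      rcases hA with rfl | hA
      · rw [empty_union]
        exact hB
      · rcases hB with rfl | hB
        · rw [union_empty]
          exact Or.inr hA
        · exact Or.inr (hU A hA B hB))
    (by rw [hF']; exact mem_insert_self _ _) (by rw [hF']; exact mem_insert_of_mem hM)
    (by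
      intro A hA
      rw [hF', mem_insert] at hA
      rcases hA with rfl | hA
      · exact empty_subset _
      · exact hMm A hA) hM0
    (by
      intro a ha b hb hab
      obtain ⟨A, hA, h⟩ := hsep a ha b hb hab
      exact ⟨A, by rw [hF']; exact mem_insert_of_mem hA, h⟩)
    (by
      intro C hC hCall A hA hCA hat B hB hCB hAB D hD
      rw [hF'] at hA hB hC hD
      rintro ⟨h1, h2⟩
      have hD' : D ∈ F := by
        rcases mem_insert.1 hD with rfl | hD
        · exact absurd (empty_subset _) h1.2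
        · exact hD
      have hA' : A ∈ F := by
        rcases mem_insert.1 hA with rfl | hA
        · exact absurd (empty_subset _) hAB
        · exact hA
      have hmem : ∀ E ∈ F, E ∈ F' := fun E hE => by
        rw [hF']
        exact mem_insert_of_mem hE
      rcases mem_insert.1 hB with rfl | hB
      · have hC0 : C = ∅ := subset_empty.1 hCB
        rw [empty_union] at h2
        exact hat D (hmem D hD') ⟨hC0 ▸ h1, h2⟩
      · exact hsm C hC (fun E hE hE0 => hCall E (hmem E hE) hE0) A hA' hCA (fun E hE => hat E (hmem E hE)) B hB hCB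
          hAB D hD' ⟨h1, h2⟩)
    (by
      intro y hy
      rw [hfil] at hy
      exact (hfreq y).1 (hcardle.trans hy))
  obtain ⟨hF, hxM, hxfreq⟩ := hmain
  constructor
  · intro hM2
    by_cases he : ∅ ∈ F
    · rw [hF', insert_eq_self.2 he] at hF
      exact hF
    · exfalso
      obtain ⟨y, hyM, hyx⟩ : ∃ y ∈ M, y ≠ x := by
        by_contra hcon
        push Not at hcon
        have h1 : M ⊆ {x} := fun y hy => by
          rw [mem_singleton]
          exact hcon y hy
        have := card_le_card h1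
        rw [card_singleton] at this
        omega
      have hFeq : F = M.powerset.filter (fun S => x ∈ S) := by
        have h1 : F'.erase ∅ = F := by rw [hF', erase_insert he]
        rw [← h1, hF, erase_insert]
        rw [mem_filter]
        exact fun h => notMem_empty x h.2
      apply hyx
      rw [← hfreq y]
      have h1 := card_filter_add_card_filter_not (s := F) (fun A => y ∈ A)
      have h2 : (F.filter (fun A => ¬ y ∈ A)).card ≤ (F.filter (fun A => y ∈ A)).card := by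
        apply card_le_card_of_injOn (fun A => insert y A)
        · intro A hA
          rw [mem_coe, mem_filter, hFeq, mem_filter, mem_powerset] at hA
          rw [mem_coe, mem_filter, hFeq, mem_filter, mem_powerset]
          exact ⟨⟨insert_subset hyM hA.1.1, mem_insert_of_mem hA.1.2⟩, mem_insert_self _ _⟩
        · intro A hA B hB h
          rw [mem_coe, mem_filter] at hA hB
          simp only at h
          have h3 := congrArg (fun S : Finset ℕ => S.erase y) h
          rw [erase_insert hA.2, erase_insert hB.2] at h3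
          exact h3
      omega
  · intro hM1
    obtain ⟨m, hm⟩ := card_eq_one.1 hM1
    have hxm : M = {x} := by
      rw [hm] at hxM ⊢
      rw [mem_singleton.1 hxM]
    have hsub : F ⊆ {∅, {x}} := by
      intro A hA
      have h1 := hMm A hA
      rw [hxm] at h1
      rw [mem_insert, mem_singleton]
      exact subset_singleton_iff.1 h1
    have hxF : {x} ∈ F := hxm ▸ hM
    by_cases he : ∅ ∈ F
    · right
      apply Subset.antisymm hsub
      intro A hA
      rw [mem_insert, mem_singleton] at hA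
      rcases hA with rfl | rfl
      · exact he
      · exact hxF
    · left
      apply Subset.antisymm
      · intro A hA
        have h1 := hsub hA
        rw [mem_insert, mem_singleton] at h1
        rcases h1 with rfl | rfl
        · exact absurd hA he
        · exact mem_singleton_self _
      · intro A hA
        rw [mem_singleton] at hA
        rw [hA]
        exact hxF

end Pool.Agent.Results.MP_881a56_co.Semimodular
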