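import Mathlib
import Pool.Agent.Lib.MP_881a56_co.Large

/-! Poonen: union-closed families with a unique frequent element, when the family is large. -/

set_option autoImplicit false

namespace Pool.Agent.Results.MP_881a56_co.ThreeQuarters

open Finset

/-- **Poonen, large families**: at least three quarters of all subsets of the largest set are members, or at
least two sevenths of them are members avoiding the frequent element, or the frequent element is barely so. -/
theorem result : ∀ (F : Finset (Finset ℕ)) (M : Finset ℕ) (x : ℕ),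
    (∀ A ∈ F, ∀ B ∈ F, A ∪ B ∈ F) →
    M ∈ F →
    (∀ A ∈ F, A ⊆ M) →
    (∀ y : ℕ, F.card ≤ 2 * (F.filter (fun A => y ∈ A)).card ↔ y = x) →
    (3 * 2 ^ M.card ≤ 4 * F.card ∨
      2 * 2 ^ M.card ≤ 7 * (F.filter (fun A => x ∉ A)).card ∨
      (2 * ((F.filter (fun A => x ∈ A)).card : ℤ) - F.card)
          * (2 ^ M.card + 2 * (2 * ((F.filter (fun A => x ∈ A)).card : ℤ) - F.card))
        < 2 * (2 ^ M.card - F.card) * (2 * F.card - 2 ^ M.card)) →
    (2 ≤ M.card → F = insert ∅ (M.powerset.filter (fun S => x ∈ S))) ∧
    (M.card = 1 → F = {{x}} ∨ F = {∅, {x}}) := by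
  intro F M x hU hM hsub hx hcase
  have hxM : x ∈ M := by
    have h1 := (hx x).2 rfl
    have h2 : 0 < F.card := card_pos.2 ⟨M, hM⟩
    have h3 : 0 < (F.filter (fun A => x ∈ A)).card := by omega
    obtain ⟨A, hA⟩ := card_pos.1 h3
    rw [mem_filter] at hA
    exact hsub A hA.1 hA.2
  refine ⟨fun h2 => ?_, fun h1 => ?_⟩
  · rcases hcase with h | h | h
    · exact Pool.Agent.Lib.MP_881a56_co.Large.partA hU hM hsub hxM hx h h2
    · exact Pool.Agent.Lib.MP_881a56_co.Large.partE hU hM hsub hxM hx h h2
    · exact (Pool.Agent.Lib.MP_881a56_co.Large.partC hU hsub hxM hx h).elim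
  · obtain ⟨z, hz⟩ := card_eq_one.1 h1
    have hzx : x = z := by rw [hz] at hxM; exact mem_singleton.1 hxM
    rw [hz, ← hzx] at hM hsub
    by_cases h0 : (∅ : Finset ℕ) ∈ F
    · right
      ext A
      rw [mem_insert, mem_singleton]
      constructor
      · intro hA
        exact subset_singleton_iff.1 (hsub A hA)
      · rintro (h | h)
        · rw [h]; exact h0
        · rw [h]; exact hM
    · left
      ext A
      rw [mem_singleton]
      constructor
      · intro hA
        rcases subset_singleton_iff.1 (hsub A hA) with h | h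
        · rw [h] at hA; exact absurd hA h0
        · exact h
      · intro h
        rw [h]; exact hM

end Pool.Agent.Results.MP_881a56_co.ThreeQuarters
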